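import Pool.Agent.H570R2.Mono.Stubs

/-!
# Task D of h570: the degree bound of `V`
-/

namespace Pool.Agent.H884R2.Mono

open Pool.Agent.H570R2.Mono

/-- A filtration of a commutative ring. -/
structure Filt (A : Type) [CommRing A] (F : ℕ → Set A) : Prop where
  zero : ∀ i, (0 : A) ∈ F i
  one : ∀ i, (1 : A) ∈ F i
  add : ∀ i a b, a ∈ F i → b ∈ F i → a + b ∈ F i
  neg : ∀ i a, a ∈ F i → -a ∈ F i
  succ : ∀ i a, a ∈ F i → a ∈ F (i + 1)
  mul : ∀ i j a b, a ∈ F i → b ∈ F j → a * b ∈ F (i + j)

variable {A : Type} [CommRing A] {F : ℕ → Set A}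

theorem Filt.mono (h : Filt A F) {i j : ℕ} (hij : i ≤ j) {a : A} (ha : a ∈ F i) : a ∈ F j := by
  induction j, hij using Nat.le_induction with
  | base => exact ha
  | succ j _ ih => exact h.succ _ _ ih

theorem Filt.natCast (h : Filt A F) (i n : ℕ) : (n : A) ∈ F i := by
  induction n with
  | zero => simpa using h.zero i
  | succ n ih => push_cast; exact h.add _ _ _ ih (h.one i)

theorem Filt.intCast (h : Filt A F) (i : ℕ) (n : ℤ) : (n : A) ∈ F i := by
  obtain ⟨m, rfl | rfl⟩ := n.eq_nat_or_neg
  · simpa using h.natCast i m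
  · simpa using h.neg _ _ (h.natCast i m)

theorem Filt.intCast_mul (h : Filt A F) (i : ℕ) (n : ℤ) {a : A} (ha : a ∈ F i) :
    (n : A) * a ∈ F i := by
  simpa using h.mul 0 i _ _ (h.intCast 0 n) ha

theorem Filt.sum (h : Filt A F) (i : ℕ) {ι : Type} (s : Finset ι) (f : ι → A)
    (hf : ∀ x ∈ s, f x ∈ F i) : ∑ x ∈ s, f x ∈ F i := by
  classical
  induction s using Finset.induction_on with
  | empty => simpa using h.zero i
  | insert x s hx ih =>
    rw [Finset.sum_insert hx]
    exact h.add _ _ _ (hf _ (Finset.mem_insert_self _ _))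
      (ih fun y hy => hf y (Finset.mem_insert_of_mem hy))

theorem Filt.list_sum (h : Filt A F) (i : ℕ) (l : List A)
    (hl : ∀ x ∈ l, x ∈ F i) : l.sum ∈ F i := by
  induction l with
  | nil => simpa using h.zero i
  | cons x l ih =>
    rw [List.sum_cons]
    exact h.add _ _ _ (hl _ (by simp)) (ih fun y hy => hl y (by simp [hy]))

theorem Filt.pow (h : Filt A F) {a : A} (ha : a ∈ F 1) (k : ℕ) : a ^ k ∈ F k := by
  induction k with
  | zero => simpa using h.one 0
  | succ k ih => rw [pow_succ]; exact h.mul _ _ _ _ ih ha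

/-- The induced filtration on polynomials. -/
def pol (F : ℕ → Set A) (i : ℕ) : Set (Polynomial A) :=
  {G | ∀ k, (k ≤ i → G.coeff k ∈ F (i - k)) ∧ (i < k → G.coeff k = 0)}

theorem Filt.pol (h : Filt A F) : Filt (Polynomial A) (pol F) where
  zero i k := by simp [h.zero]
  one i k := by
    rw [Polynomial.coeff_one]
    refine ⟨fun _ => ?_, fun hk => ?_⟩
    · split_ifs
      · exact h.one _
      · exact h.zero _
    · rw [if_neg (by omega)]
  add i a b ha hb k := by
    rw [Polynomial.coeff_add]
    refine ⟨fun hk => h.add _ _ _ ((ha k).1 hk) ((hb k).1 hk), fun hk => ?_⟩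
    rw [(ha k).2 hk, (hb k).2 hk, add_zero]
  neg i a ha k := by
    rw [Polynomial.coeff_neg]
    refine ⟨fun hk => h.neg _ _ ((ha k).1 hk), fun hk => ?_⟩
    rw [(ha k).2 hk, neg_zero]
  succ i a ha k := by
    refine ⟨fun hk => ?_, fun hk => (ha k).2 (by omega)⟩
    rcases Nat.lt_or_ge i k with h1 | h1
    · rw [(ha k).2 h1]; exact h.zero _
    · exact h.mono (by omega) ((ha k).1 h1)
  mul i j a b ha hb k := by
    rw [Polynomial.coeff_mul]
    refine ⟨fun hk => h.sum _ _ _ fun x hx => ?_, fun hk => Finset.sum_eq_zero fun x hx => ?_⟩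
    · rw [Finset.HasAntidiagonal.mem_antidiagonal] at hx
      rcases Nat.lt_or_ge i x.1 with h1 | h1
      · rw [(ha x.1).2 h1, zero_mul]; exact h.zero _
      · rcases Nat.lt_or_ge j x.2 with h2 | h2
        · rw [(hb x.2).2 h2, mul_zero]; exact h.zero _
        · have := h.mul _ _ _ _ ((ha x.1).1 h1) ((hb x.2).1 h2)
          have e : i - x.1 + (j - x.2) = i + j - k := by omega
          rwa [e] at this
    · rw [Finset.HasAntidiagonal.mem_antidiagonal] at hx
      rcases Nat.lt_or_ge i x.1 with h1 | h1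
      · rw [(ha x.1).2 h1, zero_mul]
      · rw [(hb x.2).2 (by omega), mul_zero]

theorem ext_mem (h : Filt A F) {q : List A} (hq : ∀ x ∈ q, x ∈ F 1) :
    ∀ x ∈ ext q, x ∈ pol F 1 := by
  intro x hx
  rw [ext, List.mem_append, List.mem_map, List.mem_singleton] at hx
  rcases hx with ⟨a, ha, rfl⟩ | rfl
  · intro k
    rw [Polynomial.coeff_C]
    refine ⟨fun hk => ?_, fun hk => by rw [if_neg (by omega)]⟩
    split_ifs with h0
    · subst h0; exact hq a ha
    · exact h.zero _
  · intro k
    rw [Polynomial.coeff_X]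
    refine ⟨fun hk => ?_, fun hk => by rw [if_neg (by omega)]⟩
    split_ifs with h0
    · exact h.one _
    · exact h.zero _

theorem V_nil (M : ℤ) (A : Type) [CommRing A] (q : List A) : V M [] A q = 1 := rfl
theorem V_deq (M : ℤ) (x y : ℕ) (p : List Ins) (A : Type) [CommRing A] (q : List A) :
    V M ((0, x, y) :: p) A q = V M p A q.tail := rfl
theorem V_real (M : ℤ) (x y : ℕ) (p : List Ins) (A : Type) [CommRing A] (q : List A) :
    V M ((1, x, y) :: p) A q = (V M p (Polynomial A) (ext q)).coeff 1 := rfl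
theorem V_read (M : ℤ) (x y : ℕ) (p : List Ins) (A : Type) [CommRing A] (q : List A) :
    V M ((2, x, y) :: p) A q = q.sum * V M p A q := rfl
theorem V_por (M : ℤ) (c a b : ℕ) (p : List Ins) (A : Type) [CommRing A] (q : List A) :
    V M ((c + 3, a, b) :: p) A q =
      pf (a * M + b) q.sum (V M p (Polynomial A) (ext q)) := rfl

theorem V_mem (M : ℤ) (p : List Ins) : ∀ (A : Type) [CommRing A] (F : ℕ → Set A), Filt A F →
    ∀ q : List A, (∀ x ∈ q, x ∈ F 1) → V M p A q ∈ F (reads p) := by
  induction p with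
  | nil => intro A _ F h q _; rw [V_nil]; exact h.one _
  | cons i p ih =>
    intro A _ F h q hq
    obtain ⟨kd, a, b⟩ := i
    match kd with
    | 0 =>
      rw [V_deq]
      have : reads ((0, a, b) :: p) = reads p := by simp [reads]
      rw [this]
      exact ih A F h _ fun x hx => hq x (List.mem_of_mem_tail hx)
    | 1 =>
      rw [V_real]
      have : reads ((1, a, b) :: p) = reads p := by simp [reads]
      rw [this]
      have h1 := ih (Polynomial A) (pol F) h.pol _ (ext_mem h hq) 1
      rcases Nat.lt_or_ge (reads p) 1 with h2 | h2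
      · rw [h1.2 h2]; exact h.zero _
      · exact h.mono (by omega) (h1.1 h2)
    | 2 =>
      rw [V_read]
      have : reads ((2, a, b) :: p) = 1 + reads p := by simp [reads]
      rw [this]
      exact h.mul _ _ _ _ (h.list_sum _ _ hq) (ih A F h q hq)
    | c + 3 =>
      rw [V_por]
      have : reads ((c + 3, a, b) :: p) = reads p := by simp [reads]
      rw [this, pf, Polynomial.sum_def]
      refine h.sum _ _ _ fun k _ => ?_
      have h1 := ih (Polynomial A) (pol F) h.pol _ (ext_mem h hq) k
      rcases Nat.lt_or_ge (reads p) k with h2 | h2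
      · rw [h1.2 h2, mul_zero]; exact h.zero _
      · have h3 := h.intCast_mul _ (Ring.choose (a * M + b) k)
          (h.mul _ _ _ _ (h.pow (h.list_sum _ _ hq) k) (h1.1 h2))
        have e : k + (reads p - k) = reads p := by omega
        rw [e] at h3
        rwa [mul_assoc]

/-- degree at most `i` -/
theorem filt_univ (A : Type) [CommRing A] : Filt A (fun _ => (Set.univ : Set A)) where
  zero _ := trivial
  one _ := trivial
  add _ _ _ _ _ := trivial
  neg _ _ _ := trivial
  succ _ _ _ := trivial
  mul _ _ _ _ _ _ := trivial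

theorem stub_deg : StubDeg := by
  intro M p A _ q
  rw [Polynomial.natDegree_le_iff_coeff_eq_zero]
  intro k hk
  exact (V_mem M p (Polynomial A) _ (filt_univ A).pol (ext q)
    (ext_mem (filt_univ A) fun _ _ => trivial) k).2 hk

end Pool.Agent.H884R2.Mono
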